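import Pool.Agent.H81.RD.Ball

/-!
# Growing balls without a bound for the whole set

If all out-sums in `B` are at least `K m` and every subset `R` of `B` has a vertex with inner sum at
most `c (|R| - 1)`, then from every vertex at least `β m` vertices are reached with the load
`Λ β / (K - c β) + 1 / C + b / 2`.
-/

set_option autoImplicit false

namespace Pool.Agent.H70.SC

open Finset Pool.Agent.H81.RD

variable {V : Type}

/-- the growth of one ball -/
theorem ball_strong [DecidableEq V] {b C q K c β κ m : ℝ} (hb : 0 < b) (hC : 0 < C) (hq : 1 < q)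
    (hc : 0 ≤ c) (hβ0 : 0 < β) (hcβ : c * β < K) (hm : 0 < m)
    (hκ : (q + q ^ 2 / (b * C * (q - 1))) * β / (K - c * β) + 1 / C + b / 2 ≤ κ)
    {s : V → V → ℕ} (hs : ∀ u y, (s u y : ℝ) = 0 ∨ C ≤ s u y) (hs0 : ∀ u, s u u = 0)
    (B : Finset V)
    (hB : ∀ u ∈ B, K * m ≤ ∑ y ∈ B, (s u y : ℝ))
    (hmin : ∀ R ⊆ B, 2 ≤ R.card → ∃ u ∈ R, ∑ y ∈ R, (s u y : ℝ) < c * ((R.card : ℝ) - 1))
    {v : V} (hv : v ∈ B) :
    ∃ R ⊆ B, v ∈ R ∧ β * m ≤ (R.card : ℝ) - 1 ∧
      ∀ y ∈ R, ∃ N : ℕ → ℕ, ∃ L : ℕ, W s v N L y ∧ ∀ T : ℕ, (N T : ℝ) ≤ κ * T := by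
  have hq0 : 0 < q - 1 := by linarith
  obtain ⟨Λ, hΛ⟩ : ∃ Λ, Λ = q + q ^ 2 / (b * C * (q - 1)) := ⟨_, rfl⟩
  have hΛ0 : 0 < Λ := by rw [hΛ]; positivity
  have hKc : 0 < K - c * β := by linarith
  have hKcm : 0 < (K - c * β) * m := mul_pos hKc hm
  -- the number of scales
  obtain ⟨J, hJ⟩ : ∃ J : ℕ, ∀ u ∈ B, ∀ y ∈ B, (s u y : ℝ) < C * q ^ (J + 1) := by
    obtain ⟨k, hk⟩ := pow_unbounded_of_one_lt ((∑ u ∈ B, ∑ y ∈ B, (s u y : ℝ)) / C) hq
    refine ⟨k, fun u hu y hy => ?_⟩
    have h1 : (s u y : ℝ) ≤ ∑ u ∈ B, ∑ y ∈ B, (s u y : ℝ) := by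
      refine le_trans ?_ (single_le_sum (f := fun u => ∑ y ∈ B, (s u y : ℝ))
        (fun u _ => sum_nonneg fun y _ => Nat.cast_nonneg _) hu)
      exact single_le_sum (f := fun y => (s u y : ℝ)) (fun y _ => Nat.cast_nonneg _) hy
    rw [div_lt_iff₀ hC] at hk
    have h2 : q ^ k ≤ q ^ (k + 1) := pow_le_pow_right₀ hq.le (by omega)
    have h3 := mul_le_mul_of_nonneg_left h2 hC.le
    linarith
  have key : ∀ k : ℕ, ∃ R ⊆ B, ∃ n : Fin (J + 1) → ℕ, v ∈ R ∧
      (∀ y ∈ R, ∃ N : ℕ → ℕ, ∃ L : ℕ, W s v N L y ∧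
        ∀ T : ℕ, N T ≤ ∑ i : Fin (J + 1), if C * q ^ (i : ℕ) ≤ (T : ℝ) then n i else 0) ∧
      (((K - c * β) * m * pot b C q n ≤ Λ * ((R.card : ℝ) - 1) ∧
          (R.card : ℝ) - 1 < β * m ∧ k ≤ R.card) ∨
        (β * m ≤ (R.card : ℝ) - 1 ∧
          pot b C q n ≤ Λ * β / (K - c * β) + 1 / C)) := by
    intro k
    induction k with
    | zero =>
      refine ⟨{v}, by simpa using hv, 0, mem_singleton_self v, ?_, Or.inl ⟨?_, ?_, Nat.zero_le _⟩⟩
      · intro y hy
        rw [mem_singleton] at hy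
        subst hy
        exact ⟨_, 0, W.refl, fun T => Nat.zero_le _⟩
      · have h1 := pot_zero (J := J) hb C q
        rw [card_singleton, Nat.cast_one, sub_self, mul_zero]
        exact mul_nonpos_of_nonneg_of_nonpos hKcm.le h1
      · rw [card_singleton, Nat.cast_one, sub_self]
        exact mul_pos hβ0 hm
    | succ k ih =>
      obtain ⟨R, hRB, n, hvR, hreach, halt⟩ := ih
      rcases halt with ⟨hpot, hsmall, hk⟩ | hbig
      swap
      · exact ⟨R, hRB, n, hvR, hreach, Or.inr hbig⟩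
      have hRne : R.Nonempty := ⟨v, hvR⟩
      have hR1 : 1 ≤ R.card := card_pos.mpr hRne
      have hexit : ∃ u ∈ R, ∑ y ∈ R, (s u y : ℝ) ≤ c * ((R.card : ℝ) - 1) := by
        rcases Nat.lt_or_ge R.card 2 with h1 | h1
        · have h2 : R.card = 1 := by omega
          obtain ⟨a, ha⟩ := card_eq_one.mp h2
          refine ⟨a, by rw [ha]; exact mem_singleton_self a, ?_⟩
          rw [ha, sum_singleton, hs0, card_singleton]
          simp
        · obtain ⟨u, hu, h2⟩ := hmin R hRB h1
          exact ⟨u, hu, h2.le⟩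
      obtain ⟨u, huR, hu⟩ := hexit
      have hsplit : ∑ y ∈ B \ R, (s u y : ℝ) + ∑ y ∈ R, (s u y : ℝ) = ∑ y ∈ B, (s u y : ℝ) :=
        sum_sdiff hRB
      have hu' : (K - c * β) * m ≤ ∑ y ∈ B \ R, (s u y : ℝ) := by
        have h1 := hB u (hRB huR)
        have h2 := mul_le_mul_of_nonneg_left hsmall.le hc
        have e : (K - c * β) * m = K * m - c * (β * m) := by ring
        rw [e]
        linarith
      have hDne : (B \ R).Nonempty := by
        rw [nonempty_iff_ne_empty]
        intro h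
        rw [h, sum_empty] at hu'
        linarith
      have hDpos : (0 : ℝ) < ((B \ R).card : ℝ) := by exact_mod_cast card_pos.mpr hDne
      have eD : (K - c * β) * m / ((B \ R).card : ℝ) * ((B \ R).card : ℝ) = (K - c * β) * m :=
        div_mul_cancel₀ _ hDpos.ne'
      obtain ⟨i, hi1, hi2⟩ := exists_cheap (J := J) (K := (K - c * β) * m / ((B \ R).card : ℝ)) hb hC
        hq (div_pos hKcm hDpos) (B \ R) hDne u
        (fun y _ => hs u y) (fun y hy => hJ u (hRB huR) y (mem_sdiff.mp hy).1)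
        (by rw [eD]; exact hu') n
      rw [← hΛ, eD] at hi2
      obtain ⟨A, hA⟩ : ∃ A, A = (B \ R).filter fun y => C * q ^ (i : ℕ) ≤ s u y := ⟨_, rfl⟩
      rw [← hA] at hi1 hi2
      have hAsub : A ⊆ B \ R := by rw [hA]; exact filter_subset _ _
      have hdisj : Disjoint R A := by
        rw [Finset.disjoint_left]
        intro y hy hy'
        exact (mem_sdiff.mp (hAsub hy')).2 hy
      have hcard2 : (R ∪ A).card = R.card + A.card := card_union_of_disjoint hdisj
      have hRA : R ∪ A ⊆ B := union_subset hRB (hAsub.trans sdiff_subset)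
      refine ⟨R ∪ A, hRA, n + Pi.single i 1, mem_union_left _ hvR, ?_, ?_⟩
      · have hsum : ∀ T : ℕ, (∑ j : Fin (J + 1), if C * q ^ (j : ℕ) ≤ (T : ℝ) then
            (n + Pi.single i 1 : Fin (J + 1) → ℕ) j else 0) =
            (∑ j : Fin (J + 1), if C * q ^ (j : ℕ) ≤ (T : ℝ) then n j else 0) +
              if C * q ^ (i : ℕ) ≤ (T : ℝ) then 1 else 0 := by
          intro T
          have e1 : ∀ j : Fin (J + 1), (if C * q ^ (j : ℕ) ≤ (T : ℝ) then
              (n + Pi.single i 1 : Fin (J + 1) → ℕ) j else 0) =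
              (if C * q ^ (j : ℕ) ≤ (T : ℝ) then n j else 0) +
                if j = i then (if C * q ^ (i : ℕ) ≤ (T : ℝ) then 1 else 0) else 0 := by
            intro j
            by_cases h : j = i
            · subst h
              by_cases h2 : C * q ^ (j : ℕ) ≤ (T : ℝ) <;> simp [h2]
            · simp [h]
          rw [sum_congr rfl fun j _ => e1 j, sum_add_distrib]
          simp
        intro y hy
        rw [mem_union] at hy
        rcases hy with hy | hy
        · obtain ⟨N, L, hW, hN⟩ := hreach y hy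
          refine ⟨N, L, hW, fun T => ?_⟩
          rw [hsum]
          exact (hN T).trans (Nat.le_add_right _ _)
        · obtain ⟨N, L, hW, hN⟩ := hreach u huR
          rw [hA, mem_filter] at hy
          have hpos : 0 < s u y := by
            have h1 : (0 : ℝ) < C * q ^ (i : ℕ) := by positivity
            have h2 : (0 : ℝ) < s u y := lt_of_lt_of_le h1 hy.2
            exact_mod_cast h2
          refine ⟨_, L + 1, W.step hW hpos, fun T => ?_⟩
          rw [hsum]
          refine Nat.add_le_add (hN T) ?_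
          by_cases h1 : s u y ≤ T
          · have h2 : C * q ^ (i : ℕ) ≤ (T : ℝ) := hy.2.trans (by exact_mod_cast h1)
            rw [if_pos h1, if_pos h2]
          · rw [if_neg h1]
            exact Nat.zero_le _
      · have hstep : (K - c * β) * m * pot b C q (n + Pi.single i 1) ≤
            Λ * (((R ∪ A).card : ℝ) - 1) := by
          rw [hcard2]
          push_cast
          linarith
        by_cases hlast : β * m ≤ ((R ∪ A).card : ℝ) - 1
        · right
          refine ⟨hlast, ?_⟩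
          have h1 := pot_step_max b hC hq n i
          have h2 : pot b C q n ≤ Λ * β / (K - c * β) := by
            rw [le_div_iff₀ hKc]
            have h3 : (K - c * β) * m * pot b C q n ≤ Λ * (β * m) :=
              hpot.trans (mul_le_mul_of_nonneg_left hsmall.le hΛ0.le)
            have h4 : m * (pot b C q n * (K - c * β)) ≤ m * (Λ * β) := by linarith
            exact le_of_mul_le_mul_left h4 hm
          linarith
        · left
          push Not at hlast
          exact ⟨hstep, hlast, by rw [hcard2]; omega⟩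
  obtain ⟨R, hRB, n, hvR, hreach, halt⟩ := key (B.card + 1)
  have hRle := card_le_card hRB
  rcases halt with ⟨_, _, hk⟩ | ⟨hbig, hpot⟩
  · omega
  refine ⟨R, hRB, hvR, hbig, fun y hy => ?_⟩
  obtain ⟨N, L, hW, hN⟩ := hreach y hy
  refine ⟨N, L, hW, fun T => ?_⟩
  have hld : ∀ j, ld C q n j ≤ κ := by
    intro j
    have h1 := ld_le_pot b C q n j
    rw [← hΛ] at hκ
    linarith
  have hκ0 : 0 ≤ κ := by
    refine le_trans ?_ (hld 0)
    unfold ld
    refine div_nonneg (sum_nonneg fun i _ => ?_) (by positivity)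
    split_ifs
    · exact Nat.cast_nonneg _
    · exact le_rfl
  have hNT : (N T : ℝ) ≤ ∑ i : Fin (J + 1), if C * q ^ (i : ℕ) ≤ (T : ℝ) then (n i : ℝ) else 0 := by
    have h1 : ((N T : ℕ) : ℝ) ≤
        ((∑ i : Fin (J + 1), if C * q ^ (i : ℕ) ≤ (T : ℝ) then n i else 0 : ℕ) : ℝ) := by
      exact_mod_cast hN T
    push_cast at h1
    exact h1
  refine hNT.trans ?_
  rcases ((univ : Finset (Fin (J + 1))).filter
    fun i : Fin (J + 1) => C * q ^ (i : ℕ) ≤ (T : ℝ)).eq_empty_or_nonempty with h1 | h1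
  · rw [← sum_filter, h1, sum_empty]
    positivity
  · obtain ⟨j, hj, hmax⟩ := exists_max_image _ (fun i : Fin (J + 1) => i) h1
    rw [mem_filter] at hj
    have h2 : (∑ i : Fin (J + 1), if C * q ^ (i : ℕ) ≤ (T : ℝ) then (n i : ℝ) else 0) ≤
        ∑ i : Fin (J + 1), if i ≤ j then (n i : ℝ) else 0 := by
      refine sum_le_sum fun i _ => ?_
      by_cases h3 : C * q ^ (i : ℕ) ≤ (T : ℝ)
      · have h4 := hmax i (mem_filter.mpr ⟨mem_univ _, h3⟩)
        rw [if_pos h3, if_pos h4]
      · rw [if_neg h3]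
        split_ifs
        · exact Nat.cast_nonneg _
        · exact le_rfl
    have h3 := hld j
    unfold ld at h3
    rw [div_le_iff₀ (by positivity)] at h3
    have h4 := mul_le_mul_of_nonneg_left hj.2 hκ0
    linarith

end Pool.Agent.H70.SC
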