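import Pool.Agent.H70.SC.Grow

/-!
# A closed walk or a large reach set

With `c = 84 / 25`, `a = 1 + c`, `Δ = 93 / 20 - a`, `q = K + 1` the sums `y i` of
`r - (|R| - 1)` over the good sequences of length `i` satisfy
`y (i + 1) ≤ (q - a) y i - Δ r |gd K i|`, and `q * |gd K i| ≥ (q - i) q ^ i`.
-/

set_option autoImplicit false

namespace Pool.Agent.H70.SC

open Finset Pool.Agent.H81.RD Pool.Agent.H81.RE

theorem exp_lb : (71 : ℝ) < Real.exp (4.31) := by
  have h1 : Real.exp 4.31 = Real.exp 1 ^ 4 * Real.exp 0.31 := by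
    rw [← Real.exp_nat_mul, ← Real.exp_add]
    norm_num
  have h2 := Real.exp_one_gt_d9
  have h3 := Real.quadratic_le_exp_of_nonneg (by norm_num : (0 : ℝ) ≤ 0.31)
  have h4 : (1.358 : ℝ) ≤ Real.exp 0.31 := by norm_num at h3 ⊢; linarith
  have h5 : (2.7182 : ℝ) ^ 4 ≤ Real.exp 1 ^ 4 := pow_le_pow_left₀ (by norm_num) (by linarith) _
  rw [h1]
  have h6 : (54.59 : ℝ) ≤ Real.exp 1 ^ 4 := by norm_num at h5 ⊢; linarith
  nlinarith

/-- the numerical inequality -/
theorem num_ineq {K : ℕ} (hK : 100 ≤ K) {q a Δ A : ℝ} (hq : q = K + 1) (ha : a = 109 / 25)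
    (hΔ : Δ = 29 / 100) (hA : A = 1 + Δ / a * (1 + 1 / a)) :
    A * q * (q - a) ^ K < Δ / a * (1 + q / a) * q ^ K := by
  have hKr : (100 : ℝ) ≤ K := by exact_mod_cast hK
  have hq0 : 0 < q := by linarith
  have h1 : (q - a) ^ K ≤ q ^ K * Real.exp (-4.31) := by
    have h2 : 1 - a / q ≤ Real.exp (-(a / q)) := by
      have := Real.add_one_le_exp (-(a / q))
      linarith
    have h3 : 0 ≤ 1 - a / q := by
      rw [sub_nonneg, div_le_one hq0, hq, ha]
      linarith
    have h4 : (q - a) ^ K = q ^ K * (1 - a / q) ^ K := by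
      rw [← mul_pow]
      congr 1
      field_simp
    rw [h4]
    refine mul_le_mul_of_nonneg_left ?_ (by positivity)
    refine (pow_le_pow_left₀ h3 h2 _).trans ?_
    rw [← Real.exp_nat_mul, Real.exp_le_exp]
    have h5 : (4.31 : ℝ) ≤ K * (a / q) := by
      rw [← mul_div_assoc, le_div_iff₀ hq0, hq, ha]
      linarith
    linarith
  have h2 : Real.exp (-4.31) < 1 / 71 := by
    rw [Real.exp_neg, inv_eq_one_div]
    exact one_div_lt_one_div_of_lt (by norm_num) exp_lb
  have hA0 : 0 < A := by rw [hA, hΔ, ha]; norm_num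
  have hqK : 0 < q ^ K := by positivity
  calc A * q * (q - a) ^ K ≤ A * q * (q ^ K * Real.exp (-4.31)) :=
        mul_le_mul_of_nonneg_left h1 (by positivity)
    _ < A * q * (q ^ K * (1 / 71)) := by
        refine mul_lt_mul_of_pos_left ?_ (by positivity)
        exact mul_lt_mul_of_pos_left h2 hqK
    _ ≤ Δ / a * (q / a) * q ^ K := by
        have e : A * q * (q ^ K * (1 / 71)) = (A / 71) * (q * q ^ K) := by ring
        have e2 : Δ / a * (q / a) * q ^ K = (Δ / a ^ 2) * (q * q ^ K) := by field_simp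
        rw [e, e2]
        refine mul_le_mul_of_nonneg_right ?_ (by positivity)
        rw [hA, hΔ, ha]
        norm_num
    _ ≤ Δ / a * (1 + q / a) * q ^ K := by
        refine mul_le_mul_of_nonneg_right ?_ hqK.le
        refine mul_le_mul_of_nonneg_left (by linarith) ?_
        rw [hΔ, ha]
        norm_num

variable {V : Type} [Fintype V] [DecidableEq V]

/-- the vertices after a good sequence of thresholds have their out-neighbours in the reach set -/
theorem out_walk {s : V → V → ℕ} {f : Finset V → V} (hf : ∀ R : Finset V, R.Nonempty → f R ∈ R)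
    {v : V} {K i : ℕ} {ω : Fin i → Fin K} (hω : ω ∈ gd K i) {u y : V} (hu : u ∈ grw s f v i ω)
    (h : 0 < s u y) : ∃ N : ℕ → ℕ, ∃ L : ℕ, 0 < L ∧ W s v N L y ∧ ∀ T, N T ≤ T := by
  obtain ⟨N, L, hW, hN⟩ := grw_walk hf i ω u hu
  refine ⟨_, L + 1, Nat.succ_pos _, W.step hW h, fun T => ?_⟩
  rcases Nat.eq_zero_or_pos T with h0 | h0
  · subst h0
    have h1 := hN 0
    have h2 : ¬ s u y ≤ 0 := by omega
    rw [if_neg h2]
    simpa using h1
  · have h1 : (univ.filter fun j : Fin i => (ω j : ℕ) < T - 1).card ≤ T - 1 := by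
      unfold gd at hω
      rw [mem_filter] at hω
      rcases Nat.lt_or_ge K (T - 1) with h2 | h2
      · have h3 : (univ.filter fun j : Fin i => (ω j : ℕ) < K).card ≤ K := hω.2 K le_rfl
        have h4 : (univ.filter fun j : Fin i => (ω j : ℕ) < T - 1) ⊆
            univ.filter fun j : Fin i => (ω j : ℕ) < K := by
          intro j _
          rw [mem_filter]
          exact ⟨mem_univ _, (ω j).isLt⟩
        have h5 := card_le_card h4
        omega
      · exact hω.2 (T - 1) h2
    have h2 := hN T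
    have h3 : (if s u y ≤ T then 1 else 0) ≤ 1 := by split_ifs <;> omega
    omega

/-- **A closed walk or large reach sets.** -/
theorem closed_or_reach {s : V → V → ℕ} (hs0 : ∀ u, s u u = 0) {m : ℝ}
    (hm : ∀ u, m ≤ ∑ y, (s u y : ℝ)) :
    (∃ (v : V) (N : ℕ → ℕ) (L : ℕ), 0 < L ∧ W s v N L v ∧ ∀ T : ℕ, N T ≤ T) ∨
      ∀ v : V, 20 * m ≤ 93 * (((reach s v).card : ℝ) - 1) := by
  rw [or_iff_not_imp_left]
  intro hno v
  by_contra hbig
  push Not at hbig
  obtain ⟨r, hr⟩ : ∃ r : ℝ, r = ((reach s v).card : ℝ) - 1 := ⟨_, rfl⟩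
  rw [← hr] at hbig
  have hcards : ∀ X : Finset V, X ⊆ (reach s v).erase v → (X.card : ℝ) ≤ r := by
    intro X hX
    have h2 := card_le_card hX
    rw [card_erase_of_mem (self_mem_reach s v)] at h2
    have h3 : 1 ≤ (reach s v).card := card_pos.mpr ⟨v, self_mem_reach s v⟩
    have h4 : (X.card : ℝ) ≤ (((reach s v).card - 1 : ℕ) : ℝ) := by exact_mod_cast h2
    rw [Nat.cast_sub h3, Nat.cast_one] at h4
    rw [hr]
    exact h4
  have hr0 : 0 ≤ r := by
    have := hcards ∅ (empty_subset _)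
    simpa using this
  have hrpos : 0 < r := by
    have h4 : ∃ y, 0 < s v y := by
      by_contra h5
      push Not at h5
      have h6 : ∑ y, (s v y : ℝ) = 0 := sum_eq_zero fun y _ => by
        have := h5 y
        have h7 : s v y = 0 := by omega
        rw [h7]
        simp
      have h7 := hm v
      rw [h6] at h7
      linarith
    obtain ⟨y, hy⟩ := h4
    have h5 := hcards {y} (by
      rw [singleton_subset_iff, mem_erase]
      refine ⟨?_, out_mem_reach hy⟩
      rintro rfl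
      rw [hs0] at hy
      omega)
    rw [card_singleton, Nat.cast_one] at h5
    linarith
  -- the vertices with a small inner sum
  have hf : ∀ R : Finset V, ∃ u : V, R.Nonempty →
      u ∈ R ∧ ∑ y ∈ R, (s u y : ℝ) ≤ (84 / 25 : ℝ) * ((R.card : ℝ) - 1) := by
    intro R
    by_cases h2 : R.Nonempty
    · have hR1 : 1 ≤ R.card := card_pos.mpr h2
      rcases Nat.lt_or_ge R.card 2 with h1 | h1
      · have h3 : R.card = 1 := by omega
        obtain ⟨b, hb⟩ := card_eq_one.mp h3
        refine ⟨b, fun _ => ⟨by rw [hb]; exact mem_singleton_self b, ?_⟩⟩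
        rw [hb, sum_singleton, hs0, card_singleton]
        simp
      · by_contra h3
        push Not at h3
        exact hno (exists_closed hs0 R h1 fun u hu => (((h3 u).2 hu)).le)
    · exact ⟨v, fun h => absurd h h2⟩
  choose f hf using hf
  have hf1 : ∀ R : Finset V, R.Nonempty → f R ∈ R := fun R hR => (hf R hR).1
  obtain ⟨K, hK100, hK⟩ : ∃ K : ℕ, 100 ≤ K ∧ ∀ u y, s u y ≤ K := by
    refine ⟨100 + ∑ u, ∑ y, s u y, by omega, fun u y => ?_⟩
    have h1 : s u y ≤ ∑ u, ∑ y, s u y := by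
      refine le_trans ?_ (single_le_sum (f := fun u => ∑ y, s u y)
        (fun u _ => Nat.zero_le _) (mem_univ u))
      exact single_le_sum (f := fun y => s u y) (fun y _ => Nat.zero_le _) (mem_univ y)
    omega
  have hKr : (100 : ℝ) ≤ K := by exact_mod_cast hK100
  -- the deficiency
  obtain ⟨Y, hY⟩ : ∃ Y : (i : ℕ) → (Fin i → Fin K) → ℝ,
    Y = fun i ω => r - (((grw s f v i ω).card : ℝ) - 1) := ⟨_, rfl⟩
  have hsub : ∀ R : Finset V, R ⊆ reach s v → (R.card : ℝ) - 1 ≤ r := by
    intro R hR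
    have h1 : (R.card : ℝ) ≤ (reach s v).card := by exact_mod_cast card_le_card hR
    rw [hr]
    linarith
  have hY0 : ∀ i, ∀ ω ∈ gd K i, 0 ≤ Y i ω := by
    intro i ω hω
    have := hsub _ (grw_sub hf1 ω hω)
    rw [hY]
    simp only
    linarith
  have hY1 : ∀ i, ∀ ω : Fin (i + 1) → Fin K, (fun j : Fin i => ω j.succ) ∈ gd K i →
      0 ≤ Y (i + 1) ω := by
    intro i ω hω
    have := hsub _ (grw_succ_sub hf1 ω hω)
    rw [hY]
    simp only
    linarith
  have hstep : ∀ i, ∀ ω ∈ gd K i, ∑ τ : Fin K, Y (i + 1) (Fin.cons τ ω) ≤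
      (K - 84 / 25) * Y i ω - (29 / 100) * r := by
    intro i ω hω
    obtain ⟨R, hR⟩ : ∃ R, R = grw s f v i ω := ⟨_, rfl⟩
    have hRne : R.Nonempty := hR ▸ grw_nonempty i ω
    have e1 : ∀ τ : Fin K, Y (i + 1) (Fin.cons τ ω) = r + 1 - ((add s f R τ).card : ℝ) := by
      intro τ
      rw [hY]
      simp only [grw, Fin.cons_zero, Fin.cons_succ, ← hR]
      ring
    have h1 := sum_add (s := s) (f := f) (R := R) (K := K) (fun y => hK _ _)
    have h2 : ∑ y ∈ univ.filter (fun y => y ∉ R), (s (f R) y : ℝ) +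
        ∑ y ∈ R, (s (f R) y : ℝ) = ∑ y, (s (f R) y : ℝ) := by
      have h3 := sum_filter_add_sum_filter_not (univ : Finset V) (fun y => y ∉ R)
        (fun y => (s (f R) y : ℝ))
      have h4 : univ.filter (fun y => ¬ y ∉ R) = R := by
        ext y
        simp
      rw [h4] at h3
      exact h3
    have h3 := (hf R hRne).2
    have h4 := hm (f R)
    have h5 := hcards (univ.filter fun y => 0 < s (f R) y) (by
      intro y hy
      rw [mem_filter] at hy
      have hfR : f R ∈ grw s f v i ω := hR ▸ hf1 R hRne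
      obtain ⟨N, L, hL, hW, hN⟩ := out_walk hf1 hω hfR hy.2
      refine mem_erase.mpr ⟨?_, mem_reach.mpr ⟨N, L, hW, hN⟩⟩
      rintro rfl
      exact hno ⟨y, N, L, hL, hW, hN⟩)
    rw [sum_congr rfl fun τ _ => e1 τ, sum_sub_distrib, sum_const, card_univ, Fintype.card_fin,
      nsmul_eq_mul]
    have e2 : Y i ω = r - ((R.card : ℝ) - 1) := by rw [hY, hR]
    rw [e2]
    linarith
  obtain ⟨q, hq⟩ : ∃ q : ℝ, q = K + 1 := ⟨_, rfl⟩
  obtain ⟨a, ha⟩ : ∃ a : ℝ, a = 109 / 25 := ⟨_, rfl⟩
  obtain ⟨Δ, hΔ⟩ : ∃ Δ : ℝ, Δ = 29 / 100 := ⟨_, rfl⟩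
  obtain ⟨A, hA⟩ : ∃ A : ℝ, A = 1 + Δ / a * (1 + 1 / a) := ⟨_, rfl⟩
  have hq0 : 0 < q := by linarith
  have ha0 : 0 < a := by rw [ha]; norm_num
  have hΔ0 : 0 < Δ := by rw [hΔ]; norm_num
  have hqa : 0 < q - a := by rw [hq, ha]; linarith
  have hcard : ∀ i, i ≤ K → (q - i) * q ^ i ≤ q * ((gd K i).card : ℝ) := by
    intro i hi
    have h1 := gd_card K i
    have h2 : (((K + 1 - i : ℕ) : ℝ)) * ((K + 1 : ℕ) : ℝ) ^ i ≤
        ((K + 1 : ℕ) : ℝ) * ((gd K i).card : ℝ) := by exact_mod_cast h1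
    rw [Nat.cast_sub (by omega)] at h2
    push_cast at h2
    rw [hq]
    exact h2
  have key : ∀ i, i ≤ K → q * ∑ ω ∈ gd K i, Y i ω ≤
      r * (A * q * (q - a) ^ i - Δ / a * (q - i + q / a) * q ^ i) := by
    intro i
    induction i with
    | zero =>
      intro _
      have h1 : ∑ ω ∈ gd K 0, Y 0 ω ≤ r := by
        have h2 : gd K 0 = univ := by
          unfold gd
          rw [filter_eq_self]
          intro ω _ t _
          simp
        rw [h2, Fintype.sum_unique, hY]
        simp [grw]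
      refine (mul_le_mul_of_nonneg_left h1 hq0.le).trans (le_of_eq ?_)
      rw [hA]
      simp only [pow_zero, Nat.cast_zero, sub_zero, mul_one]
      field_simp
      ring
    | succ i ih =>
      intro hi
      have h1 := sum_gd_succ (K := K) (i := i) (Y (i + 1))
        (fun ω => (K - 84 / 25) * Y i ω - (29 / 100) * r) (hY1 i) (hstep i)
      rw [sum_sub_distrib, ← mul_sum, sum_const, nsmul_eq_mul] at h1
      have h2 := ih (by omega)
      have h3 := hcard i (by omega)
      have h4 : q * ∑ ω ∈ gd K (i + 1), Y (i + 1) ω ≤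
          (q - a) * (q * ∑ ω ∈ gd K i, Y i ω) - Δ * r * (q * ((gd K i).card : ℝ)) := by
        have h5 := mul_le_mul_of_nonneg_left h1 hq0.le
        refine h5.trans (le_of_eq ?_)
        rw [hq, ha, hΔ]
        ring
      refine h4.trans ?_
      have h5 := mul_le_mul_of_nonneg_left h2 hqa.le
      have h6 := mul_le_mul_of_nonneg_left h3 (mul_nonneg hΔ0.le hrpos.le)
      have e : (q - a) * (r * (A * q * (q - a) ^ i - Δ / a * (q - i + q / a) * q ^ i)) -
          Δ * r * ((q - i) * q ^ i) =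
          r * (A * q * (q - a) ^ (i + 1) - Δ / a * (q - (i + 1 : ℕ) + q / a) * q ^ (i + 1)) := by
        rw [pow_succ, pow_succ]
        push_cast
        field_simp
        ring
      linarith
  have h1 := key K le_rfl
  have h2 : 0 ≤ ∑ ω ∈ gd K K, Y K ω := sum_nonneg fun ω hω => hY0 K ω hω
  have h3 := num_ineq hK100 hq ha hΔ hA
  have h4 : q - K + q / a = 1 + q / a := by rw [hq]; ring
  rw [h4] at h1
  have h5 : 0 ≤ q * ∑ ω ∈ gd K K, Y K ω := mul_nonneg hq0.le h2
  have h6 : r * (A * q * (q - a) ^ K - Δ / a * (1 + q / a) * q ^ K) < 0 :=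
    mul_neg_of_pos_of_neg hrpos (by linarith)
  linarith

end Pool.Agent.H70.SC
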