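import Pool.Agent.H70.SC.BallS
import Pool.Agent.H81.RD.Iter

/-!
# Contraction and reach sets

`PS V C K lam`: if all multiplicities are `0` or at least `C` and all out-sums in a set `B` are at
least `K m`, then there is a closed walk with at most `lam T` steps of multiplicity at most `T`, or
from every vertex of `B` at least `m` other vertices of `B` are reached by such walks.

The step: suppose that from `v₀` fewer than `m` vertices are reached; `U` is the set of the vertices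
reached from `v₀`.  By the induction hypothesis for `(1 - γ) m` at least `(1 - γ) m` vertices `S` are
reached from `v₀` with load `lam'`, and from each of them `β m` vertices with load `κ`; all these are
in `U`, so some `w ∈ U` is reached from at least `β (1 - γ) m` other vertices of `S`.  Contract the
set of the vertices from which `w` is reached with load `κ` to `w`, and apply the induction
hypothesis for `(1 - β (1 - γ)) m`.
-/

set_option autoImplicit false

namespace Pool.Agent.H70.SC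

open Finset Pool.Agent.H81.RD

variable {V : Type}

/-- a closed walk or large reach sets -/
def PS (V : Type) (C : ℕ) (K lam : ℝ) : Prop :=
  ∀ (s : V → V → ℕ) (B : Finset V) (m : ℝ), 0 < m → (∀ u, s u u = 0) →
    (∀ u y, s u y = 0 ∨ C ≤ s u y) →
    (∀ u ∈ B, K * m ≤ ∑ y ∈ B, (s u y : ℝ)) →
    (∃ (v : V) (N : ℕ → ℕ) (L : ℕ), 0 < L ∧ W s v N L v ∧ ∀ T : ℕ, (N T : ℝ) ≤ lam * T) ∨
    ∀ v ∈ B, ∃ R ⊆ B, v ∈ R ∧ m ≤ (R.card : ℝ) - 1 ∧
      ∀ y ∈ R, ∃ (N : ℕ → ℕ) (L : ℕ), W s v N L y ∧ ∀ T : ℕ, (N T : ℝ) ≤ lam * T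

theorem PS.mono {C C' : ℕ} {K lam : ℝ} (hCC : C ≤ C') (h : PS V C K lam) : PS V C' K lam := by
  intro s B m hm hs0 hs hB
  refine h s B m hm hs0 (fun u y => ?_) hB
  rcases hs u y with h1 | h1
  · exact Or.inl h1
  · exact Or.inr (hCC.trans h1)

/-- the base case -/
theorem PS_base' [DecidableEq V] {b q K lam : ℝ} {C : ℕ} (hb : 0 < b) (hC : 0 < C)
    (hq : 1 < q) (hK : 0 < K)
    (hκ : (q + q ^ 2 / (b * C * (q - 1))) * 1 / (K - K / 2 * 1) + 1 / C + b / 2 ≤ lam)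
    (hP : P V C (K / 2) lam) : PS V C K lam := by
  intro s B m hm hs0 hs hB
  rw [or_iff_not_imp_left]
  intro hno v hv
  have hsr : ∀ u y, (s u y : ℝ) = 0 ∨ (C : ℝ) ≤ s u y := by
    intro u y
    rcases hs u y with h1 | h1
    · left
      exact_mod_cast h1
    · right
      exact_mod_cast h1
  obtain ⟨R, hRB, hvR, hbig, hreach⟩ := ball_strong (c := K / 2) (β := 1) hb
    (by exact_mod_cast hC) hq (by linarith) one_pos (by linarith) hm hκ hsr hs0 B hB (by
      intro R hR hR2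
      by_contra h
      push Not at h
      exact hno (hP s R hR2 hs0 hs h)) hv
  rw [one_mul] at hbig
  exact ⟨R, hRB, hvR, hbig, hreach⟩

/-- the transfer of open walks -/
theorem transfer_open {s s' : V → V → ℕ} {w : V} {D : Finset V} {κ : ℝ} {C : ℕ} (hC : 0 < C)
    (hκ0 : 0 ≤ κ)
    (hs : ∀ u y, s u y = 0 ∨ C ≤ s u y)
    (hs' : ∀ u y, 0 < s' u y → (y ≠ w ∧ s' u y = s u y) ∨ (y = w ∧ ∃ x ∈ D, 0 < s u x))
    (hD : ∀ x ∈ D, ∃ (N : ℕ → ℕ) (L : ℕ), W s x N L w ∧ ∀ T : ℕ, (N T : ℝ) ≤ κ * T)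
    {a y : V} {N : ℕ → ℕ} {L : ℕ} (h : W s' a N L y) :
    (∃ (v : V) (N0 : ℕ → ℕ) (L0 : ℕ), 0 < L0 ∧ W s v N0 L0 v ∧
        ∀ T : ℕ, (N0 T : ℝ) ≤ N T + (κ + 1 / C) * T) ∨
      ∃ (N0 : ℕ → ℕ) (L0 : ℕ), W s a N0 L0 y ∧ ∀ T : ℕ, (N0 T : ℝ) ≤ N T + (κ + 1 / C) * T := by
  have hCr : (0 : ℝ) < C := by exact_mod_cast hC
  rcases transfer hC hs hs' hD h with h1 | ⟨N1, hW, hN⟩ | ⟨u, N1, L1, N2, L2, hW1, hx, hW2, hN⟩
  · exact Or.inl h1
  · refine Or.inr ⟨N1, L, hW, fun T => ?_⟩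
    have h2 : (N1 T : ℝ) ≤ N T := by exact_mod_cast hN T
    have h3 : 0 ≤ (κ + 1 / C) * (T : ℝ) := by positivity
    linarith
  · obtain ⟨x, hxD, hx⟩ := hx
    obtain ⟨Nx, Lx, hWx, hNx⟩ := hD x hxD
    refine Or.inr ⟨_, _, ((W.step hW1 hx).trans hWx).trans hW2, fun T => ?_⟩
    have h1 := hNx T
    have h2 : (((if s u x ≤ T then 1 else 0 : ℕ)) : ℝ) ≤ 1 / C * T := by
      split_ifs with h3
      · have h4 : C ≤ s u x := by
          rcases hs u x with h5 | h5
          · omega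
          · exact h5
        have h5 : (C : ℝ) ≤ T := by exact_mod_cast h4.trans h3
        rw [Nat.cast_one, div_mul_eq_mul_div, one_mul, le_div_iff₀ hCr]
        linarith
      · simp only [Nat.cast_zero]
        positivity
    have h4 : ((N1 T + N2 T : ℕ) : ℝ) ≤ N T := by exact_mod_cast hN T
    push_cast at h2 h4 ⊢
    linarith

/-- at the contracted vertex -/
theorem transfer_at {s s' : V → V → ℕ} {w : V} {D : Finset V} {κ : ℝ} {C : ℕ} (hC : 0 < C)
    (hs : ∀ u y, s u y = 0 ∨ C ≤ s u y)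
    (hs' : ∀ u y, 0 < s' u y → (y ≠ w ∧ s' u y = s u y) ∨ (y = w ∧ ∃ x ∈ D, 0 < s u x))
    (hD : ∀ x ∈ D, ∃ (N : ℕ → ℕ) (L : ℕ), W s x N L w ∧ ∀ T : ℕ, (N T : ℝ) ≤ κ * T)
    {y : V} {N : ℕ → ℕ} {L : ℕ} (h : W s' w N L y) :
    (∃ (v : V) (N0 : ℕ → ℕ) (L0 : ℕ), 0 < L0 ∧ W s v N0 L0 v ∧
        ∀ T : ℕ, (N0 T : ℝ) ≤ N T + (κ + 1 / C) * T) ∨
      ∃ N0 : ℕ → ℕ, W s w N0 L y ∧ ∀ T : ℕ, N0 T ≤ N T := by
  rcases transfer hC hs hs' hD h with h1 | ⟨N1, hW, hN⟩ | ⟨u, N1, L1, N2, L2, hW1, hx, hW2, hN⟩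
  · exact Or.inl h1
  · exact Or.inr ⟨N1, hW, hN⟩
  · obtain ⟨v, N0, L0, hL0, hW, hN0⟩ := close_up hC hs hD hW1 hx
    refine Or.inl ⟨v, N0, L0, hL0, hW, fun T => ?_⟩
    have h1 := hN0 T
    have h2 : (N1 T : ℝ) ≤ N T := by
      have := hN T
      exact_mod_cast (by omega : N1 T ≤ N T)
    linarith

/-- averaging -/
theorem popular [DecidableEq V] (S U : Finset V) (hU : U.Nonempty) (R : V → Finset V)
    (hR : ∀ v ∈ S, R v ⊆ U) (hvR : ∀ v ∈ S, v ∈ R v) {x y : ℝ}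
    (hbig : ∀ v ∈ S, x ≤ ((R v).card : ℝ) - 1) (hxy : (U.card : ℝ) * y ≤ S.card * x) :
    ∃ w ∈ U, y ≤ ((S.filter fun v => v ≠ w ∧ w ∈ R v).card : ℝ) := by
  by_contra hcon
  push Not at hcon
  have h1 : ∑ w ∈ U, ((S.filter fun v => v ≠ w ∧ w ∈ R v).card : ℝ) =
      ∑ v ∈ S, (((R v).card : ℝ) - 1) := by
    have e1 : ∀ w, ((S.filter fun v => v ≠ w ∧ w ∈ R v).card : ℝ) =
        ∑ v ∈ S, if v ≠ w ∧ w ∈ R v then (1 : ℝ) else 0 := by
      intro w
      rw [sum_boole]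
    have e2 : ∀ v ∈ S, ((R v).card : ℝ) - 1 = ∑ w ∈ U, if v ≠ w ∧ w ∈ R v then (1 : ℝ) else 0 := by
      intro v hv
      rw [sum_boole]
      have h2 : U.filter (fun w => v ≠ w ∧ w ∈ R v) = (R v).erase v := by
        ext w
        rw [mem_filter, mem_erase]
        exact ⟨fun h => ⟨h.2.1.symm, h.2.2⟩, fun h => ⟨hR v hv h.2, h.1.symm, h.2⟩⟩
      rw [h2, card_erase_of_mem (hvR v hv), Nat.cast_sub (card_pos.mpr ⟨v, hvR v hv⟩), Nat.cast_one]
    rw [sum_congr rfl fun w _ => e1 w, sum_comm]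
    exact sum_congr rfl fun v hv => (e2 v hv).symm
  have h2 : ∑ w ∈ U, ((S.filter fun v => v ≠ w ∧ w ∈ R v).card : ℝ) < ∑ w ∈ U, y :=
    sum_lt_sum_of_nonempty hU fun w hw => hcon w hw
  have h3 : ∑ v ∈ S, x ≤ ∑ v ∈ S, (((R v).card : ℝ) - 1) := sum_le_sum fun v hv => hbig v hv
  rw [h1] at h2
  rw [sum_const, nsmul_eq_mul] at h2 h3
  linarith

/-- **Contraction.** -/
theorem PS_step [DecidableEq V] {b q K β γ κ lam lam' : ℝ} {C : ℕ} (hb : 0 < b) (hC : 0 < C)
    (hq : 1 < q) (hK : 0 < K) (hβ0 : 0 < β) (hβ1 : β < 1) (hγ0 : 0 < γ) (hγ1 : γ < 1)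
    (hκ : (q + q ^ 2 / (b * C * (q - 1))) * β / (K - K * β) + 1 / C + b / 2 ≤ κ)
    (hlam0 : 0 ≤ lam') (hlam : lam' + κ + 1 / C ≤ lam)
    (hP : P V C K lam)
    (hA : PS V C (K / (1 - γ)) lam') (hB : PS V C (K / (1 - β * (1 - γ))) lam') :
    PS V C K lam := by
  have hCr : (0 : ℝ) < C := by exact_mod_cast hC
  have hγ' : 0 < 1 - γ := by linarith
  have hβγ : β * (1 - γ) < 1 := by nlinarith
  have hβγ0 : 0 < β * (1 - γ) := mul_pos hβ0 hγ'
  intro s B m hm hs0 hs hBs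
  rw [or_iff_not_imp_left]
  intro hno v0 hv0
  have hsr : ∀ u y, (s u y : ℝ) = 0 ∨ (C : ℝ) ≤ s u y := by
    intro u y
    rcases hs u y with h1 | h1
    · left
      exact_mod_cast h1
    · right
      exact_mod_cast h1
  have hball : ∀ v ∈ B, ∃ R ⊆ B, v ∈ R ∧ β * m ≤ (R.card : ℝ) - 1 ∧
      ∀ y ∈ R, ∃ N : ℕ → ℕ, ∃ L : ℕ, W s v N L y ∧ ∀ T : ℕ, (N T : ℝ) ≤ κ * T := by
    intro v hv
    refine ball_strong (c := K) (β := β) hb hCr hq hK.le hβ0 (by nlinarith) hm hκ hsr hs0 B hBs ?_ hv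
    intro R hR hR2
    by_contra h
    push Not at h
    exact hno (hP s R hR2 hs0 hs h)
  choose! R hR using hball
  have hκ0 : 0 ≤ κ := by
    obtain ⟨N, L, _, hN⟩ := (hR v0 hv0).2.2.2 v0 (hR v0 hv0).2.1
    have h1 := hN 1
    have h2 : (0 : ℝ) ≤ N 1 := Nat.cast_nonneg _
    simp only [Nat.cast_one, mul_one] at h1
    linarith
  have hC1 : (0 : ℝ) < 1 / C := by positivity
  have hlamle : ∀ T : ℕ, (lam' + κ + 1 / C) * (T : ℝ) ≤ lam * T := fun T =>
    mul_le_mul_of_nonneg_right hlam (Nat.cast_nonneg T)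
  have hκT : ∀ T : ℕ, 0 ≤ κ * (T : ℝ) := fun T => mul_nonneg hκ0 (Nat.cast_nonneg T)
  have hCT : ∀ T : ℕ, 0 ≤ 1 / (C : ℝ) * (T : ℝ) := fun T => mul_nonneg hC1.le (Nat.cast_nonneg T)
  have hlT : ∀ T : ℕ, 0 ≤ lam' * (T : ℝ) := fun T => mul_nonneg hlam0 (Nat.cast_nonneg T)
  -- the set `U`
  by_contra hcon
  push Not at hcon
  classical
  obtain ⟨U, hU⟩ : ∃ U, U = B.filter fun y => ∃ (N : ℕ → ℕ) (L : ℕ), W s v0 N L y ∧
    ∀ T : ℕ, (N T : ℝ) ≤ lam * T := ⟨_, rfl⟩
  have hUB : U ⊆ B := by rw [hU]; exact filter_subset _ _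
  have hv0U : v0 ∈ U := by
    rw [hU, mem_filter]
    refine ⟨hv0, _, 0, W.refl, fun T => ?_⟩
    have h1 := hlamle T
    have h2 := hκT T
    have h3 := hCT T
    have h4 := hlT T
    simp only [Nat.cast_zero]
    linarith
  have hUcard : (U.card : ℝ) - 1 < m := by
    by_contra h
    push Not at h
    obtain ⟨y, hy, h2⟩ := hcon U hUB hv0U h
    rw [hU, mem_filter] at hy
    obtain ⟨N, L, hW, hN⟩ := hy.2
    obtain ⟨T, hT⟩ := h2 N L hW
    have := hN T
    linarith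
  have hU1 : (1 : ℝ) ≤ U.card := by exact_mod_cast card_pos.mpr ⟨v0, hv0U⟩
  -- the set `S`
  have hS := hA s B ((1 - γ) * m) (mul_pos hγ' hm) hs0 hs (by
    intro u hu
    have e : K / (1 - γ) * ((1 - γ) * m) = K * m := by
      field_simp
    rw [e]
    exact hBs u hu)
  have hS' := hS.resolve_left (by
    rintro ⟨v, N, L, hL, hW, hN⟩
    refine hno ⟨v, N, L, hL, hW, fun T => (hN T).trans ?_⟩
    have h1 := hlamle T
    have h2 := hκT T
    have h3 := hCT T
    linarith) v0 hv0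
  obtain ⟨S, hSB, hv0S, hScard, hSreach⟩ := hS'
  have hSU : S ⊆ U := by
    intro y hy
    rw [hU, mem_filter]
    obtain ⟨N, L, hW, hN⟩ := hSreach y hy
    refine ⟨hSB hy, N, L, hW, fun T => (hN T).trans ?_⟩
    have h1 := hlamle T
    have h2 := hκT T
    have h3 := hCT T
    linarith
  have hRU : ∀ v ∈ S, R v ⊆ U := by
    intro v hv y hy
    rw [hU, mem_filter]
    obtain ⟨N, L, hW, hN⟩ := hSreach v hv
    obtain ⟨N', L', hW', hN'⟩ := (hR v (hSB hv)).2.2.2 y hy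
    refine ⟨(hR v (hSB hv)).1 hy, _, _, hW.trans hW', fun T => ?_⟩
    have h1 := hlamle T
    have h3 := hCT T
    have h4 := hN T
    have h5 := hN' T
    push_cast
    linarith
  -- the popular vertex
  obtain ⟨w, hwU, hw⟩ := popular S U ⟨v0, hv0U⟩ R hRU (fun v hv => (hR v (hSB hv)).2.1)
    (x := β * m) (y := β * (1 - γ) * m) (fun v hv => (hR v (hSB hv)).2.2.1) (by
      have h1 : (U.card : ℝ) * (1 - γ) ≤ S.card := by
        have h2 : (U.card : ℝ) ≤ 1 + m := by linarith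
        have h3 := mul_le_mul_of_nonneg_right h2 hγ'.le
        have e : (1 + m) * (1 - γ) = (1 - γ) + (1 - γ) * m := by ring
        rw [e] at h3
        linarith
      have h2 := mul_le_mul_of_nonneg_right h1 (mul_pos hβ0 hm).le
      linarith)
  have hwB : w ∈ B := hUB hwU
  obtain ⟨D, hD⟩ : ∃ D, D = B.filter fun v => w ∈ R v := ⟨_, rfl⟩
  have hDB : D ⊆ B := by rw [hD]; exact filter_subset _ _
  have hwD : w ∈ D := by
    rw [hD, mem_filter]
    exact ⟨hwB, (hR w hwB).2.1⟩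
  have hDW : ∀ x ∈ D, ∃ (N : ℕ → ℕ) (L : ℕ), W s x N L w ∧ ∀ T : ℕ, (N T : ℝ) ≤ κ * T := by
    intro x hx
    rw [hD, mem_filter] at hx
    exact (hR x hx.1).2.2.2 w hx.2
  by_cases hcase : ∃ x ∈ D, 0 < s w x
  · -- a short closed walk through `w`
    obtain ⟨v, N0, L0, hL0, hW, hN⟩ := close_up hC hs hDW W.refl hcase
    refine hno ⟨v, N0, L0, hL0, hW, fun T => ?_⟩
    have h1 := hN T
    have h2 := hlamle T
    have h4 := hlT T
    simp only [Nat.cast_zero, zero_add] at h1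
    linarith
  have hw0 : ∀ x ∈ D, s w x = 0 := by
    intro x hx
    by_contra h
    exact hcase ⟨x, hx, Nat.pos_of_ne_zero h⟩
  -- the contracted multiplicities
  obtain ⟨M, hM⟩ := exists_nat_ge (max (C : ℝ) (K * m))
  have hMC : C ≤ M := by exact_mod_cast (le_max_left _ _).trans hM
  have hMK : K * m ≤ M := (le_max_right _ _).trans hM
  obtain ⟨B', hB'⟩ : ∃ B', B' = insert w (B \ D) := ⟨_, rfl⟩
  have hwnot : w ∉ B \ D := fun h => (mem_sdiff.mp h).2 hwD
  have hB'B : B' ⊆ B := by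
    rw [hB']
    exact insert_subset hwB sdiff_subset
  have hwB' : w ∈ B' := by rw [hB']; exact mem_insert_self _ _
  obtain ⟨s', hs'⟩ : ∃ s' : V → V → ℕ, s' = fun u y => if u ∈ B' ∧ y ∈ B' then
      (if y = w then (if ∃ x ∈ D, 0 < s u x then M else 0) else s u y) else 0 := ⟨_, rfl⟩
  have htr : ∀ u y, 0 < s' u y → (y ≠ w ∧ s' u y = s u y) ∨ (y = w ∧ ∃ x ∈ D, 0 < s u x) := by
    intro u y hpos
    rw [hs'] at hpos ⊢
    simp only at hpos ⊢
    by_cases h1 : u ∈ B' ∧ y ∈ B'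
    · rw [if_pos h1] at hpos ⊢
      by_cases h2 : y = w
      · right
        rw [if_pos h2] at hpos
        by_cases h3 : ∃ x ∈ D, 0 < s u x
        · exact ⟨h2, h3⟩
        · rw [if_neg h3] at hpos
          omega
      · left
        rw [if_neg h2]
        exact ⟨h2, rfl⟩
    · rw [if_neg h1] at hpos
      omega
  have hcl := hB s' B' ((1 - β * (1 - γ)) * m) (mul_pos (by linarith) hm) (by
      intro u
      rw [hs']
      simp only
      by_cases h1 : u = w
      · subst h1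
        simp [hcase]
      · simp [h1, hs0]) (by
      intro u y
      rw [hs']
      simp only
      split_ifs
      · exact Or.inr hMC
      · exact Or.inl rfl
      · exact hs u y
      · exact Or.inl rfl) (by
      intro u hu
      have hlow : K / (1 - β * (1 - γ)) * ((1 - β * (1 - γ)) * m) = K * m := by
        have h1 : (1 - β * (1 - γ)) ≠ 0 := by linarith
        field_simp
      rw [hlow]
      by_cases hx : ∃ x ∈ D, 0 < s u x
      · have h1 : s' u w = M := by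
          rw [hs']
          show (if u ∈ B' ∧ w ∈ B' then (if w = w then (if ∃ x ∈ D, 0 < s u x then M else 0)
            else s u w) else 0) = M
          rw [if_pos ⟨hu, hwB'⟩, if_pos rfl, if_pos hx]
        calc K * m ≤ (s' u w : ℝ) := by rw [h1]; exact hMK
          _ ≤ ∑ y ∈ B', (s' u y : ℝ) :=
              single_le_sum (f := fun y => (s' u y : ℝ)) (fun y _ => Nat.cast_nonneg _) hwB'
      · have hu0 : ∀ x ∈ D, s u x = 0 := by
          intro x hx'
          by_contra h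
          exact hx ⟨x, hx', Nat.pos_of_ne_zero h⟩
        have h1 : ∑ y ∈ B, (s u y : ℝ) = ∑ y ∈ B \ D, (s u y : ℝ) := by
          rw [← sum_sdiff hDB]
          have h2 : ∑ y ∈ D, (s u y : ℝ) = 0 :=
            sum_eq_zero fun y hy => by rw [hu0 y hy]; simp
          rw [h2, add_zero]
        have h2 : ∑ y ∈ B \ D, (s u y : ℝ) ≤ ∑ y ∈ B', (s' u y : ℝ) := by
          have h3 : ∑ y ∈ B \ D, (s u y : ℝ) = ∑ y ∈ B \ D, (s' u y : ℝ) := by
            refine sum_congr rfl fun y hy => ?_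
            have hyB' : y ∈ B' := by rw [hB']; exact mem_insert_of_mem hy
            have hyw : y ≠ w := fun h => hwnot (h ▸ hy)
            rw [hs']
            simp only
            rw [if_pos ⟨hu, hyB'⟩, if_neg hyw]
          rw [h3]
          refine sum_le_sum_of_subset_of_nonneg ?_ fun y _ _ => Nat.cast_nonneg _
          rw [hB']
          exact subset_insert _ _
        have h3 := hBs u (hB'B hu)
        linarith)
  have hcl' := hcl.resolve_left (by
    rintro ⟨a, N, L, hL, hW, hN⟩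
    obtain ⟨v, N0, L0, hL0, hW0, hN0⟩ := transfer_closed hC hκ0 hs htr hDW hL hW
    refine hno ⟨v, N0, L0, hL0, hW0, fun T => ?_⟩
    have h1 := hN0 T
    have h2 := hN T
    have h3 := hlamle T
    linarith)
  -- the reach set of `v0` after the contraction
  have hfin : ∃ R' ⊆ B', (1 - β * (1 - γ)) * m ≤ (R'.card : ℝ) - 1 ∧ R' ⊆ U := by
    by_cases hv0D : v0 ∈ D
    · obtain ⟨R', hR'B, _, hR'card, hR'⟩ := hcl' w hwB'
      refine ⟨R', hR'B, hR'card, fun y hy => ?_⟩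
      obtain ⟨N, L, hW, hN⟩ := hR' y hy
      rw [hU, mem_filter]
      refine ⟨hB'B (hR'B hy), ?_⟩
      rcases transfer_at hC hs htr hDW hW with ⟨v, N0, L0, hL0, hW0, hN0⟩ | ⟨N0, hW0, hN0⟩
      · exfalso
        refine hno ⟨v, N0, L0, hL0, hW0, fun T => ?_⟩
        have h1 := hN0 T
        have h2 := hN T
        have h3 := hlamle T
        linarith
      · obtain ⟨N1, L1, hW1, hN1⟩ := hDW v0 hv0D
        refine ⟨_, _, hW1.trans hW0, fun T => ?_⟩
        have h1 : (N0 T : ℝ) ≤ N T := by exact_mod_cast hN0 T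
        have h2 := hN T
        have h3 := hlamle T
        have h4 := hN1 T
        have h5 := hCT T
        push_cast
        linarith
    · have hv0B' : v0 ∈ B' := by
        rw [hB']
        exact mem_insert_of_mem (mem_sdiff.mpr ⟨hv0, hv0D⟩)
      obtain ⟨R', hR'B, _, hR'card, hR'⟩ := hcl' v0 hv0B'
      refine ⟨R', hR'B, hR'card, fun y hy => ?_⟩
      obtain ⟨N, L, hW, hN⟩ := hR' y hy
      rw [hU, mem_filter]
      refine ⟨hB'B (hR'B hy), ?_⟩
      rcases transfer_open hC hκ0 hs htr hDW hW with ⟨v, N0, L0, hL0, hW0, hN0⟩ |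
        ⟨N0, L0, hW0, hN0⟩
      · exfalso
        refine hno ⟨v, N0, L0, hL0, hW0, fun T => ?_⟩
        have h1 := hN0 T
        have h2 := hN T
        have h3 := hlamle T
        linarith
      · refine ⟨N0, L0, hW0, fun T => ?_⟩
        have h1 := hN0 T
        have h2 := hN T
        have h3 := hlamle T
        linarith
  obtain ⟨R', hR'B, hR'card, hR'U⟩ := hfin
  obtain ⟨Z, hZ⟩ : ∃ Z, Z = S.filter fun v => v ≠ w ∧ w ∈ R v := ⟨_, rfl⟩
  rw [← hZ] at hw
  have hdisj : Disjoint R' Z := by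
    rw [Finset.disjoint_left]
    intro y hy hy'
    rw [hZ, mem_filter] at hy'
    have h1 := hR'B hy
    rw [hB', mem_insert, mem_sdiff] at h1
    rcases h1 with h1 | h1
    · exact hy'.2.1 h1
    · refine h1.2 ?_
      rw [hD, mem_filter]
      exact ⟨h1.1, hy'.2.2⟩
  have hsub : R' ∪ Z ⊆ U := by
    refine union_subset hR'U ?_
    rw [hZ]
    exact (filter_subset _ _).trans hSU
  have h1 := card_le_card hsub
  rw [card_union_of_disjoint hdisj] at h1
  have h2 : (R'.card : ℝ) + Z.card ≤ U.card := by exact_mod_cast h1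
  have e : (1 - β * (1 - γ)) * m = m - β * (1 - γ) * m := by ring
  rw [e] at hR'card
  linarith

end Pool.Agent.H70.SC
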