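import Pool.Agent.H81.RD.Walk
import Pool.Agent.H81.RE.Close

/-!
# Reach sets: the constant `93 / 20`

`reach s v` is the set of the vertices reached from `v` by a walk with at most `T` steps of
multiplicity at most `T`, for every `T`.  Suppose there is no closed walk of this type.  Take `v`
with the smallest reach set.  Every set `R` has a vertex `f R` with a small sum inside `R`
(`exists_closed`); add to `R` the vertices joined to `f R` with multiplicity greater than a random
threshold.  As long as the sequence of the thresholds is good the set `R` is contained in the reach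
set of `v`, and its growth is large in the mean.
-/

set_option autoImplicit false

namespace Pool.Agent.H70.SC

open Finset Pool.Agent.H81.RD Pool.Agent.H81.RE

variable {V : Type} [Fintype V] [DecidableEq V]

open Classical in
/-- the vertices reached from `v` -/
noncomputable def reach (s : V → V → ℕ) (v : V) : Finset V :=
  univ.filter fun y => ∃ N : ℕ → ℕ, ∃ L : ℕ, W s v N L y ∧ ∀ T, N T ≤ T

omit [DecidableEq V] in
theorem mem_reach {s : V → V → ℕ} {v y : V} :
    y ∈ reach s v ↔ ∃ N : ℕ → ℕ, ∃ L : ℕ, W s v N L y ∧ ∀ T, N T ≤ T := by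
  classical
  unfold reach
  rw [mem_filter]
  simp

theorem self_mem_reach (s : V → V → ℕ) (v : V) : v ∈ reach s v :=
  mem_reach.mpr ⟨_, 0, W.refl, fun _ => Nat.zero_le _⟩

theorem out_mem_reach {s : V → V → ℕ} {v y : V} (h : 0 < s v y) : y ∈ reach s v := by
  refine mem_reach.mpr ⟨_, 1, W.step W.refl h, fun T => ?_⟩
  simp only [zero_add]
  split_ifs with h1
  · omega
  · exact Nat.zero_le _

/-- one growth step -/
def add (s : V → V → ℕ) (f : Finset V → V) (R : Finset V) (τ : ℕ) : Finset V :=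
  R ∪ univ.filter fun y => y ∉ R ∧ τ + 1 < s (f R) y

/-- the growth; the last threshold is `ω 0` -/
def grw (s : V → V → ℕ) (f : Finset V → V) (v : V) {K : ℕ} : (i : ℕ) → (Fin i → Fin K) → Finset V
  | 0, _ => {v}
  | i + 1, ω => add s f (grw s f v i fun j => ω j.succ) (ω 0)

theorem add_nonempty {s : V → V → ℕ} {f : Finset V → V} {R : Finset V} (hR : R.Nonempty) (τ : ℕ) :
    (add s f R τ).Nonempty := hR.mono subset_union_left

theorem grw_nonempty {s : V → V → ℕ} {f : Finset V → V} {v : V} {K : ℕ} (i : ℕ) :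
    ∀ ω : Fin i → Fin K, (grw s f v i ω).Nonempty := by
  induction i with
  | zero => intro ω; exact singleton_nonempty v
  | succ i ih => intro ω; exact add_nonempty (ih _) _

/-- the good sequences -/
def gd (K i : ℕ) : Finset (Fin i → Fin K) :=
  univ.filter fun ω => ∀ t : ℕ, t ≤ K → (univ.filter fun j : Fin i => (ω j : ℕ) < t).card ≤ t

theorem gd_card (K i : ℕ) : (K + 1 - i) * (K + 1) ^ i ≤ (K + 1) * (gd K i).card := by
  classical
  have h := ballot (ι := Fin i) K
  rw [Fintype.card_fin] at h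
  refine h.trans (Nat.mul_le_mul_left _ (card_le_card ?_))
  intro ω hω
  rw [mem_filter] at hω
  unfold gd
  rw [mem_filter]
  exact ⟨mem_univ _, fun t _ => hω.2 t⟩

theorem count_succ {K i : ℕ} (ω : Fin (i + 1) → Fin K) (t : ℕ) :
    (univ.filter fun j : Fin (i + 1) => (ω j : ℕ) < t).card =
      (univ.filter fun j : Fin i => (ω j.succ : ℕ) < t).card + if (ω 0 : ℕ) < t then 1 else 0 := by
  rw [Fin.card_filter_univ_succ]
  split_ifs <;> simp

theorem gd_tail {K i : ℕ} {ω : Fin (i + 1) → Fin K} (h : ω ∈ gd K (i + 1)) :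
    (fun j : Fin i => ω j.succ) ∈ gd K i := by
  unfold gd at h ⊢
  rw [mem_filter] at h ⊢
  refine ⟨mem_univ _, fun t ht => ?_⟩
  have h1 := h.2 t ht
  rw [count_succ] at h1
  show (univ.filter fun j : Fin i => (ω j.succ : ℕ) < t).card ≤ t
  omega

theorem grw_walk {s : V → V → ℕ} {f : Finset V → V} (hf : ∀ R : Finset V, R.Nonempty → f R ∈ R)
    {v : V} {K : ℕ} (i : ℕ) : ∀ ω : Fin i → Fin K, ∀ y ∈ grw s f v i ω,
      ∃ N : ℕ → ℕ, ∃ L : ℕ, W s v N L y ∧
        ∀ T : ℕ, N T ≤ (univ.filter fun j : Fin i => (ω j : ℕ) < T - 1).card := by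
  induction i with
  | zero =>
    intro ω y hy
    have h1 : y = v := by simpa [grw] using hy
    subst h1
    exact ⟨_, 0, W.refl, fun T => Nat.zero_le _⟩
  | succ i ih =>
    intro ω y hy
    simp only [grw, add, mem_union, mem_filter, mem_univ, true_and] at hy
    rcases hy with hy | ⟨_, hy⟩
    · obtain ⟨N, L, hW, hN⟩ := ih _ y hy
      refine ⟨N, L, hW, fun T => ?_⟩
      rw [count_succ]
      exact (hN T).trans (Nat.le_add_right _ _)
    · obtain ⟨N, L, hW, hN⟩ := ih _ _ (hf _ (grw_nonempty i _))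
      refine ⟨_, _, W.step hW (lt_of_le_of_lt (Nat.zero_le _) hy), fun T => ?_⟩
      rw [count_succ]
      refine Nat.add_le_add (hN T) ?_
      split_ifs with h1 h2
      · exact le_rfl
      · omega
      · exact Nat.zero_le _
      · exact le_rfl

theorem grw_succ_sub {s : V → V → ℕ} {f : Finset V → V} (hf : ∀ R : Finset V, R.Nonempty → f R ∈ R)
    {v : V} {K i : ℕ} (ω : Fin (i + 1) → Fin K) (hω : (fun j : Fin i => ω j.succ) ∈ gd K i) :
    grw s f v (i + 1) ω ⊆ reach s v := by
  intro y hy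
  obtain ⟨N, L, hW, hN⟩ := grw_walk hf (i + 1) ω y hy
  refine mem_reach.mpr ⟨N, L, hW, fun T => (hN T).trans ?_⟩
  rcases Nat.eq_zero_or_pos T with h | h
  · subst h
    simp
  · rw [count_succ]
    have h1 : (univ.filter fun j : Fin i => (ω j.succ : ℕ) < T - 1).card ≤ T - 1 := by
      unfold gd at hω
      rw [mem_filter] at hω
      rcases Nat.lt_or_ge K (T - 1) with h2 | h2
      · have h3 : (univ.filter fun j : Fin i => (ω j.succ : ℕ) < K).card ≤ K := hω.2 K le_rfl
        have h4 : (univ.filter fun j : Fin i => (ω j.succ : ℕ) < T - 1) ⊆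
            univ.filter fun j : Fin i => (ω j.succ : ℕ) < K := by
          intro j _
          rw [mem_filter]
          exact ⟨mem_univ _, (ω j.succ).isLt⟩
        have h5 := card_le_card h4
        omega
      · exact hω.2 (T - 1) h2
    have h2 : (if (ω 0 : ℕ) < T - 1 then 1 else 0) ≤ 1 := by split_ifs <;> omega
    omega

theorem grw_sub {s : V → V → ℕ} {f : Finset V → V} (hf : ∀ R : Finset V, R.Nonempty → f R ∈ R)
    {v : V} {K i : ℕ} (ω : Fin i → Fin K) (hω : ω ∈ gd K i) : grw s f v i ω ⊆ reach s v := by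
  cases i with
  | zero =>
    intro y hy
    have h1 : y = v := by simpa [grw] using hy
    subst h1
    exact self_mem_reach s y
  | succ i => exact grw_succ_sub hf ω (gd_tail hω)

/-- the mean growth -/
theorem sum_add {s : V → V → ℕ} {f : Finset V → V} {R : Finset V} {K : ℕ}
    (hK : ∀ y, s (f R) y ≤ K) :
    (K : ℝ) * R.card + (∑ y ∈ univ.filter (fun y => y ∉ R), (s (f R) y : ℝ) -
      ((univ.filter fun y => 0 < s (f R) y).card : ℝ)) ≤ ∑ τ : Fin K, ((add s f R τ).card : ℝ) := by
  have h1 : ∀ τ : Fin K, ((add s f R τ).card : ℝ) = R.card +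
      ∑ y ∈ univ.filter (fun y => y ∉ R), if (τ : ℕ) + 1 < s (f R) y then (1 : ℝ) else 0 := by
    intro τ
    unfold add
    rw [card_union_of_disjoint, sum_boole, filter_filter]
    · push_cast
      rfl
    · rw [Finset.disjoint_left]
      intro y hy hy'
      exact (mem_filter.mp hy').2.1 hy
  have h2 : ∀ y, (s (f R) y : ℝ) - (if 0 < s (f R) y then (1 : ℝ) else 0) ≤
      ∑ τ : Fin K, if (τ : ℕ) + 1 < s (f R) y then (1 : ℝ) else 0 := by
    intro y
    have hy := hK y
    rcases Nat.eq_zero_or_pos (s (f R) y) with h3 | h3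
    · rw [h3]
      simp only [Nat.cast_zero, lt_irrefl, if_false, sub_zero]
      exact sum_nonneg fun τ _ => by split_ifs <;> norm_num
    · rw [if_pos h3, sum_boole]
      have h4 : (univ.filter fun τ : Fin K => (τ : ℕ) + 1 < s (f R) y).card = s (f R) y - 1 := by
        have h5 := card_le_val (K := K) (m := s (f R) y - 1) (by omega)
        have h6 : (univ.filter fun τ : Fin K => s (f R) y - 1 ≤ (τ : ℕ)).card +
            (univ.filter fun τ : Fin K => ¬ s (f R) y - 1 ≤ (τ : ℕ)).card = K := by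
          rw [card_filter_add_card_filter_not, card_univ, Fintype.card_fin]
        have h7 : (univ.filter fun τ : Fin K => ¬ s (f R) y - 1 ≤ (τ : ℕ)) =
            univ.filter fun τ : Fin K => (τ : ℕ) + 1 < s (f R) y := by
          refine filter_congr fun τ _ => ?_
          omega
        rw [h7] at h6
        omega
      rw [h4, Nat.cast_sub h3]
      simp
  have h3 : ((univ.filter fun y => y ∉ R ∧ 0 < s (f R) y).card : ℝ) ≤
      ((univ.filter fun y => 0 < s (f R) y).card : ℝ) := by
    exact_mod_cast card_le_card fun y hy => by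
      rw [mem_filter] at hy ⊢
      exact ⟨hy.1, hy.2.2⟩
  have h4 : ∑ y ∈ univ.filter (fun y => y ∉ R), (s (f R) y : ℝ) -
      ((univ.filter fun y => y ∉ R ∧ 0 < s (f R) y).card : ℝ) ≤
      ∑ y ∈ univ.filter (fun y => y ∉ R), ∑ τ : Fin K, if (τ : ℕ) + 1 < s (f R) y then (1 : ℝ) else 0 := by
    have h5 : ((univ.filter fun y => y ∉ R ∧ 0 < s (f R) y).card : ℝ) =
        ∑ y ∈ univ.filter (fun y => y ∉ R), if 0 < s (f R) y then (1 : ℝ) else 0 := by
      rw [sum_boole, filter_filter]
    rw [h5, ← sum_sub_distrib]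
    exact sum_le_sum fun y _ => h2 y
  rw [sum_congr rfl fun τ _ => h1 τ, sum_add_distrib, sum_const, card_univ, Fintype.card_fin,
    nsmul_eq_mul, sum_comm]
  linarith

/-- the recursion for the sums over the good sequences -/
theorem sum_gd_succ {K i : ℕ} (Y : (Fin (i + 1) → Fin K) → ℝ) (Z : (Fin i → Fin K) → ℝ)
    (hY : ∀ ω : Fin (i + 1) → Fin K, (fun j : Fin i => ω j.succ) ∈ gd K i → 0 ≤ Y ω)
    (hZ : ∀ ω ∈ gd K i, ∑ τ : Fin K, Y (Fin.cons τ ω) ≤ Z ω) :
    ∑ ω ∈ gd K (i + 1), Y ω ≤ ∑ ω ∈ gd K i, Z ω := by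
  classical
  have h1 : ∑ ω ∈ gd K (i + 1), Y ω ≤
      ∑ ω ∈ univ.filter (fun ω : Fin (i + 1) → Fin K => (fun j : Fin i => ω j.succ) ∈ gd K i), Y ω := by
    refine sum_le_sum_of_subset_of_nonneg ?_ ?_
    · intro ω hω
      rw [mem_filter]
      exact ⟨mem_univ _, gd_tail hω⟩
    · intro ω hω _
      rw [mem_filter] at hω
      exact hY ω hω.2
  refine h1.trans ?_
  rw [sum_filter]
  have h2 : ∑ ω : Fin (i + 1) → Fin K, (if (fun j : Fin i => ω j.succ) ∈ gd K i then Y ω else 0) =
      ∑ ω : Fin i → Fin K, ∑ τ : Fin K, if ω ∈ gd K i then Y (Fin.cons τ ω) else 0 := by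
    rw [sum_comm, ← Fintype.sum_prod_type']
    refine (Fintype.sum_equiv (Fin.consEquiv (fun _ => Fin K)) _ _ fun p => ?_).symm
    simp only [Fin.consEquiv_apply, Fin.cons_succ]
    rfl
  rw [h2]
  have h3 : ∀ ω : Fin i → Fin K, (∑ τ : Fin K, if ω ∈ gd K i then Y (Fin.cons τ ω) else 0) ≤
      if ω ∈ gd K i then Z ω else 0 := by
    intro ω
    by_cases h : ω ∈ gd K i
    · simp only [if_pos h]
      exact hZ ω h
    · simp [h]
  refine (sum_le_sum fun ω _ => h3 ω).trans (le_of_eq ?_)
  rw [← sum_filter]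
  congr 1
  ext ω
  simp

end Pool.Agent.H70.SC
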