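import Pool.Agent.H70.SC.ContractS

/-!
# Iterated contraction for reach sets
-/

set_option autoImplicit false

namespace Pool.Agent.H70.SC

open Finset Pool.Agent.H81.RD

/-- `PS` holds for some `C`, for all vertex types -/
def QS (K lam : ℝ) : Prop := ∃ C : ℕ, 0 < C ∧ ∀ V : Type, PS V C K lam

theorem QS_base {K lam : ℝ} (hK : 0 < K) (h : 24 ≤ K * lam) : QS K lam := by
  obtain ⟨C0, hC0, hP⟩ := Q_base (K := K / 2) (lam := lam) (by linarith) (by linarith)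
  obtain ⟨C1, hC1⟩ := exists_nat_ge (4 * K + 1)
  obtain ⟨C, hC⟩ : ∃ C, C = C0 + C1 := ⟨_, rfl⟩
  have hCK : 4 * K + 1 ≤ C := by
    rw [hC]
    push_cast
    have : (0 : ℝ) ≤ C0 := Nat.cast_nonneg _
    linarith
  have hCr : (0 : ℝ) < C := by linarith
  refine ⟨C, by omega, fun V => ?_⟩
  classical
  refine PS_base' (b := 1 / K) (q := 2) (by positivity) (by omega) (by norm_num) hK ?_
    ((hP V).mono (by omega))
  have h1 : (2 : ℝ) ^ 2 / (1 / K * C * (2 - 1)) ≤ 1 := by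
    rw [div_le_one (by positivity)]
    rw [sub_eq_iff_eq_add.mpr (by norm_num : (2 : ℝ) = 1 + 1), mul_one,
      div_mul_eq_mul_div, one_mul, le_div_iff₀ hK]
    linarith
  have h2 : (1 : ℝ) / C ≤ 1 / (4 * K) := one_div_le_one_div_of_le (by positivity) (by linarith)
  have h3 : (2 + (2 : ℝ) ^ 2 / (1 / K * C * (2 - 1))) * 1 / (K - K / 2 * 1) ≤ 3 / (K / 2) := by
    have e : K - K / 2 * 1 = K / 2 := by ring
    rw [e]
    exact div_le_div_of_nonneg_right (by linarith) (by linarith)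
  have h4 : 3 / (K / 2) + 1 / (4 * K) + 1 / K / 2 ≤ 7 / K := by
    have e : 3 / (K / 2) + 1 / (4 * K) + 1 / K / 2 = (27 / 4) / K := by
      field_simp
      norm_num
    rw [e]
    exact div_le_div_of_nonneg_right (by norm_num) hK.le
  have h5 : 7 / K ≤ lam := by
    rw [div_le_iff₀ hK]
    linarith
  linarith

theorem QS_step {θ : ℝ} (hθ0 : 0 < θ) (hθ1 : θ ≤ 1) {K lam : ℝ} (hK : 0 < K)
    (hg : 1 + θ ≤ K * lam)
    (hQ : ∀ K1 lam1, 0 < K1 → K * lam + θ ^ 2 / 64 ≤ K1 * lam1 → QS K1 lam1) :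
    QS K lam := by
  obtain ⟨β, hβ⟩ : ∃ β, β = θ / 8 := ⟨_, rfl⟩
  obtain ⟨γ, hγ⟩ : ∃ γ, γ = θ / 4 := ⟨_, rfl⟩
  have hβ0 : 0 < β := by rw [hβ]; positivity
  have hβ8 : β ≤ 1 / 8 := by rw [hβ]; linarith
  have hβ1 : 0 < 1 - β := by linarith
  have hγ0 : 0 < γ := by rw [hγ]; positivity
  have hγ4 : γ ≤ 1 / 4 := by rw [hγ]; linarith
  obtain ⟨η, hη⟩ : ∃ η, η = θ ^ 2 / (1000 * (K + 1)) := ⟨_, rfl⟩
  have hη0 : 0 < η := by rw [hη]; positivity
  have hηK : 1000 * η * K ≤ θ ^ 2 := by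
    rw [hη, mul_div_assoc', div_mul_eq_mul_div, div_le_iff₀ (by positivity)]
    nlinarith [sq_nonneg θ]
  have hηθ : 1000 * η ≤ θ := by
    rw [hη, mul_div_assoc', div_le_iff₀ (by positivity)]
    nlinarith [sq_nonneg θ]
  -- `x = 1 / (1 - β)`
  obtain ⟨x, hx⟩ : ∃ x, x = 1 / (1 - β) := ⟨_, rfl⟩
  have hx0 : 0 < x := by rw [hx]; positivity
  have hxβ : x * (1 - β) = 1 := by rw [hx]; field_simp
  have hx7 : x ≤ 1 + θ / 7 := by
    rw [hx, div_le_iff₀ hβ1, hβ]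
    nlinarith
  obtain ⟨lam', hlam'⟩ : ∃ lam', lam' = lam - (1 + 2 * η) * (β * x) / K - 3 * η := ⟨_, rfl⟩
  -- the loss
  have hKlam' : K * lam' = K * lam - (1 + 2 * η) * (β * x) - 3 * η * K := by
    rw [hlam']
    field_simp
  have hloss : (1 + 2 * η) * (β * x) ≤ β * (1 + θ / 7 + θ / 400) := by
    have h2 : (1 + 2 * η) * x ≤ 1 + θ / 7 + θ / 400 := by
      have : 2 * η * x ≤ 2 * η * (8 / 7) := by
        refine mul_le_mul_of_nonneg_left ?_ (by positivity)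
        linarith
      linarith
    have := mul_le_mul_of_nonneg_left h2 hβ0.le
    linarith
  have hθ2 : 0 < θ ^ 2 := by positivity
  -- the gains
  have hgain : ∀ δ : ℝ, β * (1 - γ) ≤ δ → δ ≤ 1 / 4 → K * lam + θ ^ 2 / 64 ≤ K / (1 - δ) * lam' := by
    intro δ hδ1 hδ2
    have hδ : 0 < 1 - δ := by linarith
    have e1 : K / (1 - δ) * lam' = (K * lam') / (1 - δ) := by ring
    rw [e1, hKlam', le_div_iff₀ hδ]
    have h1 : β * (1 - γ) * (1 + θ) ≤ δ * (K * lam) := by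
      refine mul_le_mul hδ1 hg (by linarith) ?_
      have : 0 ≤ β * (1 - γ) := mul_nonneg hβ0.le (by linarith)
      linarith
    have h2 : β * (1 + θ / 2) ≤ β * (1 - γ) * (1 + θ) := by
      have h3 : 1 + θ / 2 ≤ (1 - γ) * (1 + θ) := by
        rw [hγ]
        nlinarith
      have := mul_le_mul_of_nonneg_left h3 hβ0.le
      linarith
    have h3 : θ ^ 2 / 64 * (1 - δ) ≤ θ ^ 2 / 64 := by
      have h4 : 0 ≤ θ ^ 2 / 64 := by positivity
      have h5 : 0 ≤ δ := le_trans (mul_nonneg hβ0.le (by linarith)) hδ1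
      nlinarith
    have h6 : β * (1 + θ / 2) - β * (1 + θ / 7 + θ / 400) = θ ^ 2 / 8 * (1 / 2 - 1 / 7 - 1 / 400) := by
      rw [hβ]
      ring
    nlinarith
  have hβγ : β * (1 - γ) ≤ 1 / 4 := by nlinarith
  have hγge : β * (1 - γ) ≤ γ := by
    rw [hβ, hγ]
    nlinarith
  have hlam0 : 0 ≤ lam' := by
    have h1 := hgain γ hγge hγ4
    have h2 : 0 < K / (1 - γ) * lam' := by linarith
    have h3 : 0 < K / (1 - γ) := div_pos hK (by linarith)
    exact (pos_of_mul_pos_right h2 h3.le).le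
  obtain ⟨C1, hC1, hP1⟩ := hQ (K / (1 - γ)) lam' (div_pos hK (by linarith)) (hgain γ hγge hγ4)
  obtain ⟨C2, hC2, hP2⟩ := hQ (K / (1 - β * (1 - γ))) lam' (div_pos hK (by linarith))
    (hgain _ le_rfl hβγ)
  obtain ⟨j, hj⟩ := exists_nat_ge (12 / (θ ^ 2 / 64))
  obtain ⟨C3, hC3, hP3⟩ := Q_iter hθ0 hθ1 j K lam hK hg (by
    rw [div_le_iff₀ (by positivity)] at hj
    linarith)
  obtain ⟨C4, hC4⟩ := exists_nat_ge ((1 + η) ^ 2 / η ^ 3 + 1 / η)
  refine ⟨C1 + C2 + C3 + C4, by omega, fun V => ?_⟩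
  classical
  have ha : 0 < (1 + η) ^ 2 / η ^ 3 := by positivity
  have hb : 0 < 1 / η := by positivity
  obtain ⟨c, hc⟩ : ∃ c : ℝ, c = ((C1 + C2 + C3 + C4 : ℕ) : ℝ) := ⟨_, rfl⟩
  have hCr : (1 + η) ^ 2 / η ^ 3 + 1 / η ≤ c := by
    rw [hc]
    push_cast
    have h1 : (0 : ℝ) ≤ C1 := Nat.cast_nonneg _
    have h2 : (0 : ℝ) ≤ C2 := Nat.cast_nonneg _
    have h3 : (0 : ℝ) ≤ C3 := Nat.cast_nonneg _
    linarith
  have hc0 : 0 < c := by linarith
  have hinv : 1 / c ≤ η := by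
    rw [div_le_iff₀ hc0]
    have h1 : 1 / η ≤ c := by linarith
    rw [div_le_iff₀ hη0] at h1
    linarith
  have hsm : (1 + η) ^ 2 / (η * c * (1 + η - 1)) ≤ η := by
    have h1 : (1 + η) ^ 2 / η ^ 3 ≤ c := by linarith
    rw [div_le_iff₀ (by positivity)] at h1
    rw [add_sub_cancel_left, div_le_iff₀ (by positivity)]
    linarith
  refine PS_step (V := V) (b := η) (q := 1 + η) (β := β) (γ := γ)
    (κ := (1 + 2 * η) * (β * x) / K + 2 * η) (lam' := lam') hη0 (by omega) (by linarith) hK hβ0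
    (by linarith) hγ0 (by linarith) ?_ hlam0 ?_ ((hP3 V).mono (by omega))
    ((hP1 V).mono (by omega)) ((hP2 V).mono (by omega))
  · rw [← hc]
    have h1 : (1 + η + (1 + η) ^ 2 / (η * c * (1 + η - 1))) * β / (K - K * β) ≤
        (1 + 2 * η) * (β * x) / K := by
      have e : (1 + 2 * η) * (β * x) / K = (1 + 2 * η) * β / (K - K * β) := by
        have h2 : K - K * β = K * (1 - β) := by ring
        rw [h2, hx]
        field_simp
      rw [e]
      have h3 : 0 < K - K * β := by nlinarith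
      refine div_le_div_of_nonneg_right ?_ h3.le
      refine mul_le_mul_of_nonneg_right (by linarith) hβ0.le
    linarith
  · rw [← hc, hlam']
    linarith

theorem QS_iter {θ : ℝ} (hθ0 : 0 < θ) (hθ1 : θ ≤ 1) (j : ℕ) : ∀ K lam : ℝ, 0 < K →
    1 + θ ≤ K * lam → 24 ≤ K * lam + j * (θ ^ 2 / 64) → QS K lam := by
  induction j with
  | zero =>
    intro K lam hK _ h
    refine QS_base hK ?_
    simpa using h
  | succ j ih =>
    intro K lam hK hg h
    refine QS_step hθ0 hθ1 hK hg fun K1 lam1 hK1 hlam1 => ?_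
    have h2 : 0 < θ ^ 2 := by positivity
    refine ih K1 lam1 hK1 (by linarith) ?_
    push_cast at h
    linarith

/-- **The asymptotically optimal constant.** -/
theorem QS_one {ε : ℝ} (hε : 0 < ε) : QS (1 + ε) 1 := by
  obtain ⟨θ, hθ⟩ : ∃ θ, θ = min ε 1 := ⟨_, rfl⟩
  have hθ0 : 0 < θ := by rw [hθ]; exact lt_min hε one_pos
  have hθ1 : θ ≤ 1 := by rw [hθ]; exact min_le_right _ _
  have hθε : θ ≤ ε := by rw [hθ]; exact min_le_left _ _
  obtain ⟨j, hj⟩ := exists_nat_ge (24 / (θ ^ 2 / 64))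
  refine QS_iter hθ0 hθ1 j _ _ (by linarith) (by linarith) ?_
  rw [div_le_iff₀ (by positivity)] at hj
  linarith

end Pool.Agent.H70.SC
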