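import Pool.Agent.H81.RD.Main

/-!
# From walks to rainbow paths
-/

set_option autoImplicit false

namespace Pool.Agent.H70.SC

open Finset Pool.Agent.H81.RD

theorem exists_simple_path {V : Type} {s : V → V → ℕ} (K : ℕ → ℕ) {v y : V}
    (h : ∃ N : ℕ → ℕ, ∃ L : ℕ, W s v N L y ∧ ∀ T, N T ≤ K T) :
    ∃ (m : ℕ) (x : ℕ → V), x 0 = v ∧ x m = y ∧
      (∀ a b : ℕ, a < b → b ≤ m → x a ≠ x b) ∧
      (∀ j < m, 0 < s (x j) (x (j + 1))) ∧
      ∀ T, ((range m).filter (fun j => s (x j) (x (j + 1)) ≤ T)).card ≤ K T := by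
  classical
  have h' : ∃ L : ℕ, ∃ N : ℕ → ℕ, W s v N L y ∧ ∀ T, N T ≤ K T := by
    obtain ⟨N, L, hW, hc⟩ := h
    exact ⟨L, N, hW, hc⟩
  obtain ⟨N, hW, hc⟩ := Nat.find_spec h'
  have hmin := fun (m : ℕ) (hm : m < Nat.find h') => Nat.find_min h' hm
  obtain ⟨L, hLdef⟩ : ∃ L, L = Nat.find h' := ⟨_, rfl⟩
  rw [← hLdef] at hW hmin
  obtain ⟨x, hx0, hxL, hst, hcount⟩ := hW.exists_fun
  refine ⟨L, x, hx0, hxL, ?_, hst, fun T => by rw [hcount]; exact hc T⟩
  intro a b hab hb heq
  -- the shortcut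
  obtain ⟨d, hd⟩ : ∃ d, d = b - a := ⟨_, rfl⟩
  have hbd : b = a + d := by omega
  obtain ⟨z, hz⟩ : ∃ z : ℕ → V, z = fun j => if j ≤ a then x j else x (j + d) := ⟨_, rfl⟩
  have hz1 : ∀ j < a, z j = x j ∧ z (j + 1) = x (j + 1) := by
    intro j hj
    rw [hz]
    exact ⟨if_pos (by omega), if_pos (by omega)⟩
  have hz2 : ∀ j, a ≤ j → z j = x (j + d) ∧ z (j + 1) = x (j + d + 1) := by
    intro j hj
    rw [hz]
    refine ⟨?_, ?_⟩
    · show (if j ≤ a then x j else x (j + d)) = x (j + d)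
      by_cases h1 : j ≤ a
      · have h2 : j = a := le_antisymm h1 hj
        rw [if_pos h1, h2, heq, hbd]
      · rw [if_neg h1]
    · show (if j + 1 ≤ a then x (j + 1) else x (j + 1 + d)) = x (j + d + 1)
      rw [if_neg (by omega)]
      congr 1
      omega
  obtain ⟨N', hW', hc'⟩ := W.of_fun (s := s) z (L - d) (fun j hj => by
    rcases Nat.lt_or_ge j a with h1 | h1
    · rw [(hz1 j h1).1, (hz1 j h1).2]
      exact hst j (by omega)
    · rw [(hz2 j h1).1, (hz2 j h1).2]
      exact hst (j + d) (by omega))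
  refine hmin (L - d) (by omega) ⟨N', ?_, fun T => ?_⟩
  · have e1 : z 0 = v := by
      rcases Nat.eq_zero_or_pos a with h1 | h1
      · rw [(hz2 0 (by omega)).1, ← hx0, ← h1, heq, hbd]
      · rw [(hz1 0 h1).1, hx0]
    have e2 : z (L - d) = y := by
      rw [(hz2 (L - d) (by omega)).1, Nat.sub_add_cancel (by omega), hxL]
    rw [e1, e2] at hW'
    exact hW'
  · refine le_trans ?_ (hc T)
    rw [hc', ← hcount]
    refine card_le_card_of_injOn (fun j => if j < a then j else j + d) ?_ ?_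
    · intro j hj
      simp only [coe_filter, mem_range, Set.mem_ofPred_eq] at hj ⊢
      by_cases h1 : j < a
      · rw [if_pos h1]
        rw [(hz1 j h1).1, (hz1 j h1).2] at hj
        exact ⟨by omega, hj.2⟩
      · rw [if_neg h1]
        rw [(hz2 j (by omega)).1, (hz2 j (by omega)).2] at hj
        exact ⟨by omega, hj.2⟩
    · intro j _ k _ hjk
      simp only at hjk
      split_ifs at hjk <;> omega

variable {n t : ℕ}

/-- a light walk gives a rainbow path -/
theorem rainbow_path (E : Fin t → Finset (Fin n × Fin n)) {v y : Fin n}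
    (h : ∃ N : ℕ → ℕ, ∃ L : ℕ, W (lab E) v N L y ∧ ∀ T, N T ≤ T) :
    ∃ m : ℕ, ∃ x : Fin (m + 1) → Fin n, ∃ c : Fin m → Fin t,
      Function.Injective x ∧ Function.Injective c ∧ x 0 = v ∧ x (Fin.last m) = y ∧
      ∀ j : Fin m, (x j.castSucc, x j.succ) ∈ E (c j) := by
  classical
  obtain ⟨m, x, hx0, hxm, hinj, hst, hcount⟩ := exists_simple_path (fun T => T) h
  have hHall := (Finset.all_card_le_biUnion_card_iff_exists_injective
    (fun j : Fin m => (univ : Finset (Fin t)).filter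
      fun i => (x j, x ((j : ℕ) + 1)) ∈ E i)).mp (by
    intro X
    rcases X.eq_empty_or_nonempty with rfl | hX
    · simp
    · obtain ⟨j0, hj0, hmax⟩ := exists_max_image X
        (fun j : Fin m => lab E (x j) (x ((j : ℕ) + 1))) hX
      have h1 : X.card ≤ ((range m).filter (fun j => lab E (x j) (x (j + 1)) ≤
          lab E (x j0) (x ((j0 : ℕ) + 1)))).card := by
        refine card_le_card_of_injOn (fun j : Fin m => (j : ℕ)) ?_ ?_
        · intro j hj
          simp only [coe_filter, mem_range, Set.mem_ofPred_eq]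
          exact ⟨j.isLt, hmax j hj⟩
        · intro j _ k _ hjk
          exact Fin.ext hjk
      have h2 := hcount (lab E (x j0) (x ((j0 : ℕ) + 1)))
      have h3 : lab E (x j0) (x ((j0 : ℕ) + 1)) ≤ (X.biUnion fun j : Fin m =>
          (univ : Finset (Fin t)).filter fun i => (x j, x ((j : ℕ) + 1)) ∈ E i).card := by
        unfold lab
        exact card_le_card (subset_biUnion_of_mem (fun j : Fin m =>
          (univ : Finset (Fin t)).filter fun i => (x j, x ((j : ℕ) + 1)) ∈ E i) hj0)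
      omega)
  obtain ⟨c, hc, hcmem⟩ := hHall
  refine ⟨m, fun j => x j, c, ?_, hc, hx0, by simpa using hxm, ?_⟩
  · intro a b hab
    simp only at hab
    by_contra hne
    rcases lt_or_gt_of_ne (fun h => hne (Fin.ext h) : (a : ℕ) ≠ b) with h1 | h1
    · exact hinj a b h1 (by omega) hab
    · exact hinj b a h1 (by omega) hab.symm
  · intro j
    have h1 := hcmem j
    rw [mem_filter] at h1
    simpa using h1.2

end Pool.Agent.H70.SC
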